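import Pool.Agent.NH85.IP.Dens

/-!
# The number of the sums of several iterated primes

Let `a, b ≥ 0` and `k ≥ 2`. The sums of `k` `a`-primes and one `b`-prime have, up to `X`, density at least
`(log ... log X) ^ (-b - eps)`, with the `(k + 1)`-fold iterated logarithm. For `k = 1` this is the starting
result `MinExponent`, from which it is derived by induction: a positive proportion of the windows of length
`J`, a power of `log X`, contains an `a`-prime, and we add the sums up to `J` with one summand less.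
-/

set_option autoImplicit false

open Filter

namespace Pool.Agent.Results.MP_778b46_nt.DensityOfLongerSums

/-- `p(k)`, the `k`-th prime: `p(1) = 2`, `p(2) = 3`, ... -/
noncomputable def p (k : ℕ) : ℕ := Nat.nth Nat.Prime (k - 1)

/-- the `a`-primes: `p(p(... p(x) ...))`, with `a + 1` applications of `p`, `x` a positive integer -/
def IsAPrime (a u : ℕ) : Prop := ∃ x : ℕ, 0 < x ∧ p^[a + 1] x = u

/-- `n` is the sum of `k` `a`-primes and one `b`-prime -/
def IsMixedSum (a b k n : ℕ) : Prop :=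
  ∃ (l : List ℕ) (v : ℕ), l.length = k ∧ (∀ u ∈ l, IsAPrime a u) ∧ IsAPrime b v ∧ l.sum + v = n

lemma of_PI {a u : ℕ} (h : Pool.Agent.H197R2.PG.PI a u) : IsAPrime a u := by
  obtain ⟨x, hx, h1⟩ := Pool.Agent.TH665.GP.exists_index h
  exact ⟨x, hx, h1⟩

/-- **Sums of several iterated primes.** For `a, b ≥ 0`, `k ≥ 2` and `eps > 0`, for all large `X` at least
`X / (log ... log X) ^ (b + eps)` of the `n ≤ X` are sums of `k` `a`-primes and one `b`-prime, with the
`(k + 1)`-fold iterated logarithm. -/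
theorem result (a b k : ℕ) (eps : ℝ) (hk : 2 ≤ k) (heps : 0 < eps) : ∀ᶠ X : ℕ in atTop,
    (X : ℝ) / (Real.log^[k + 1] (X : ℝ)) ^ ((b : ℝ) + eps) ≤
      ({n : ℕ | n ≤ X ∧ IsMixedSum a b k n}.ncard : ℝ) := by
  obtain ⟨j, rfl⟩ : ∃ j, k = j + 1 := ⟨k - 1, by omega⟩
  filter_upwards [Pool.Agent.NH85.IP.densJ a b j eps heps] with X h
  obtain ⟨S, h1, h2⟩ := h
  refine h2.trans ?_
  have hsub : (S : Set ℕ) ⊆ {n : ℕ | n ≤ X ∧ IsMixedSum a b (j + 1) n} := by
    intro n hn
    obtain ⟨-, h3, l, v, h4, h5, h6, h7⟩ := h1 n hn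
    exact ⟨h3, l, v, h4, fun u hu => of_PI (h5 u hu), of_PI h6, h7⟩
  have hfin : {n : ℕ | n ≤ X ∧ IsMixedSum a b (j + 1) n}.Finite :=
    (Set.finite_Iic X).subset fun n hn => hn.1
  have h3 := Set.ncard_le_ncard hsub hfin
  rw [Set.ncard_coe_finset] at h3
  exact_mod_cast h3

end Pool.Agent.Results.MP_778b46_nt.DensityOfLongerSums
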