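import Pool.Agent.NH85.IP.Star
import Pool.Agent.TH665.GP.F3

/-!
# Every large integer is a sum of `O(log* N)` iterated primes

Let `a ≥ 0`. The `a`-primes are the values of the `(a + 1)`-fold iterate of `k ↦ p(k)`, the `k`-th prime.
Every large `N` is a sum of at most `C j` `a`-primes, up to a difference which is at most the `j`-fold iterated
logarithm of `N`, or a constant, and is itself a sum of `a`-primes. So every large `N` is a sum of
`O(log* N)` `a`-primes.

The proof: by the second moment of the number of the `a`-primes in windows of length `J`, a power of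
`log N`, (starting files) a positive proportion of these windows contains an `a`-prime, and so every number
of windows is a sum of a bounded number of indices of such windows, by the theorem of Schnirelmann. So `N` is,
up to a power of `log N`, a sum of a bounded number of `a`-primes; this is repeated with the difference.
-/

set_option autoImplicit false

namespace Pool.Agent.Results.MP_778b46_nt.LogStarManySummands

/-- `p(k)`, the `k`-th prime: `p(1) = 2`, `p(2) = 3`, ... -/
noncomputable def p (k : ℕ) : ℕ := Nat.nth Nat.Prime (k - 1)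

/-- the `a`-primes: `p(p(... p(x) ...))`, with `a + 1` applications of `p`, `x` a positive integer -/
def IsAPrime (a u : ℕ) : Prop := ∃ x : ℕ, 0 < x ∧ p^[a + 1] x = u

/-- `s` is the sum of at most `k` `a`-primes (not necessarily different) -/
def IsSum (a k s : ℕ) : Prop := ∃ l : List ℕ, l.length ≤ k ∧ (∀ u ∈ l, IsAPrime a u) ∧ l.sum = s

/-- `log* N`: the least `j` such that `j` applications of `n ↦ ⌊log_2 n⌋` lead from `N` to a number `≤ 1` -/
noncomputable def logStar (N : ℕ) : ℕ := sInf {j : ℕ | (Nat.log 2)^[j] N ≤ 1}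

lemma of_PI {a u : ℕ} (h : Pool.Agent.H197R2.PG.PI a u) : IsAPrime a u := by
  obtain ⟨x, hx, h1⟩ := Pool.Agent.TH665.GP.exists_index h
  exact ⟨x, hx, h1⟩

lemma IsSum.add {a k k' s s' : ℕ} (h : IsSum a k s) (h' : IsSum a k' s') :
    IsSum a (k + k') (s + s') := by
  obtain ⟨l, h1, h2, h3⟩ := h
  obtain ⟨l', h1', h2', h3'⟩ := h'
  refine ⟨l ++ l', ?_, ?_, ?_⟩
  · rw [List.length_append]; omega
  · intro u hu
    rcases List.mem_append.1 hu with h | h
    · exact h2 u h
    · exact h2' u h
  · rw [List.sum_append, h3, h3']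

lemma IsSum.mono {a k k' s : ℕ} (h : IsSum a k s) (hk : k ≤ k') : IsSum a k' s := by
  obtain ⟨l, h1, h2⟩ := h
  exact ⟨l, h1.trans hk, h2⟩

/-- **`O(log* N)` iterated primes.** There are `C`, `K`, `L` such that for every `j` every `N ≥ L` is `s + r`,
with `s` a sum of at most `C j` `a`-primes and `r`, at most the `j`-fold iterated logarithm of `N` or `K`, a sum
of at most `r` `a`-primes. In particular every `N ≥ L` is a sum of at most `C log* N + max K 1` `a`-primes. -/
theorem result (a : ℕ) : ∃ C K L : ℕ,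
    (∀ j N : ℕ, L ≤ N → ∃ s r : ℕ, IsSum a (C * j) s ∧ IsSum a r r ∧
      r ≤ max K ((Nat.log 2)^[j] N) ∧ s + r = N) ∧
    ∀ N : ℕ, L ≤ N → IsSum a (C * logStar N + max K 1) N := by
  obtain ⟨L, hL⟩ := Pool.Agent.NH85.IP.frob a
  obtain ⟨C, K, h⟩ := Pool.Agent.NH85.IP.iter a L
  have main : ∀ j N : ℕ, L ≤ N → ∃ s r : ℕ, IsSum a (C * j) s ∧ IsSum a r r ∧
      r ≤ max K ((Nat.log 2)^[j] N) ∧ s + r = N := by
    intro j N hN
    obtain ⟨l, r, h1, h2, h3, h4, h5⟩ := h j N hN
    obtain ⟨l', h1', h2', h3'⟩ := hL r h4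
    exact ⟨l.sum, r, ⟨l, h2, fun u hu => of_PI (h1 u hu), rfl⟩,
      ⟨l', h2', fun u hu => of_PI (h1' u hu), h3'⟩, h5, h3⟩
  refine ⟨C, K, L, main, fun N hN => ?_⟩
  obtain ⟨s, r, h1, h2, h3, h4⟩ := main (logStar N) N hN
  have h5 : r ≤ max K 1 := h3.trans (max_le_max le_rfl (Pool.Agent.NH85.IP.lstar_spec N))
  rw [← h4] at h1 ⊢
  exact h1.add (h2.mono h5)

end Pool.Agent.Results.MP_778b46_nt.LogStarManySummands
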