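import Pool.Agent.NH16.IG.Lo
import Pool.Agent.NH16.IG.Up
import Pool.Agent.NH16.IG.Tw
import Pool.Agent.NH16.IG.DeB
import Pool.Agent.NH16.IG.Sg
import Pool.Agent.NH16.IG.I1
import Pool.Agent.NH16.IG.I2B
import Pool.Agent.R518.B.IPr

/-!
# Sums of an iterated prime-indexed prime and a prime: reduction to residue classes modulo a tiny primorial

Let `U` be the set of the `a`-primes `u ≤ x`, `P(y)` the product of the primes `≤ y`, `y` between `K₀ log log x` and
`K₁ log log x`, and `R(n)` the set of the `u` in `U` such that `n - u` is coprime to `P(y)`. Outside a set of at most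
`ε x` numbers `n ∈ (x, 2x]` the number of the representations `n = u + p` (`u` in `U`, `p` prime) is
`(1 + O(ε)) #R(n) / (V(y) log x)`, unless `#R(n) < x / log ^ C x`. Consequences: the Hardy-Littlewood asymptotic
formula holds for almost all even `n` if and only if `#R(n)` has the expected size for almost all even `n`, and almost
all even `n` have at least `x / log ^ C x` representations for some `C` if and only if `#R(n) ≥ x / log ^ C x` for
almost all even `n` for some `C`.
-/

set_option autoImplicit false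

open Finset

namespace Pool.Agent.Results.MP_778b46_nt.ReducedToClasses

open Pool.Agent.NH16.IG

/-- The `i`-th `a`-prime: the `(a + 1)`-fold iterate of `k ↦ k`-th prime, applied to `i`. -/
noncomputable def ip (a i : ℕ) : ℕ := Nat.iterate (fun k : ℕ => Nat.nth Nat.Prime (k - 1)) (a + 1) i

open Classical in
/-- The `a`-primes `≤ x`. -/
noncomputable def IPs (a x : ℕ) : Finset ℕ := (Icc 1 x).filter (fun u => ∃ i : ℕ, 0 < i ∧ ip a i = u)

theorem descr' : Descr := descrB (twoClass lowClass upAvg)

/-- For every `a`: (1) the number of representations of almost all `n`; (2) the Hardy-Littlewood formula for almost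
all even `n`; (3) many representations of almost all even `n`. -/
theorem result (a : ℕ) :
    (∀ (C : ℕ) (ε : ℝ), 0 < ε → ε ≤ 1 → ∃ K₀ : ℕ, ∀ K₁ : ℕ, ∃ x₀ : ℕ, ∀ x : ℕ, x₀ ≤ x →
      ∀ y : ℕ, K₀ * Real.log (Real.log x) ≤ y → y ≤ K₁ * Real.log (Real.log x) →
        (((Ioc x (2 * x)).filter (fun n => (x : ℝ) ≤ (Rough (IPs a x) y n).card * Real.log x ^ C ∧
          ε * E (IPs a x) x y n < |((Rep (IPs a x) n).card : ℝ) - E (IPs a x) x y n|)).card : ℝ) ≤ ε * x) ∧
    (HL (IPs a) ↔ ED (IPs a)) ∧ (ManyRep (IPs a) ↔ ManyRough (IPs a)) := by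
  have hsub : ∀ x, IPs a x ⊆ Icc 1 x := by
    classical
    intro x
    unfold IPs
    exact filter_subset _ _
  refine ⟨?_, ?_, ?_⟩
  · intro C ε hε hε1
    obtain ⟨K₀, h⟩ := descr' C ε hε hε1
    refine ⟨K₀, fun K₁ => ?_⟩
    obtain ⟨x₀, h⟩ := h K₁
    exact ⟨x₀, fun x hx y hy1 hy2 => h x hx y hy1 hy2 (IPs a x) (hsub x)⟩
  · refine iff1 descr' sgTail (IPs a) hsub ?_
    obtain ⟨c, hc, x0, hx0⟩ := Pool.Agent.R518.IP.IPs_low a
    obtain ⟨x1, hx1⟩ : ∃ x1 : ℕ, ∀ x : ℕ, x1 ≤ x → 1 / c ≤ Real.log x := by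
      have h1 : Filter.Tendsto (fun x : ℕ => Real.log (x : ℝ)) Filter.atTop Filter.atTop :=
        Real.tendsto_log_atTop.comp tendsto_natCast_atTop_atTop
      exact Filter.eventually_atTop.1 (h1.eventually_ge_atTop (1 / c))
    refine ⟨a + 2, max (max x0 x1) 1, fun x hx => ?_⟩
    have b0 : x0 ≤ x := le_trans (le_trans (le_max_left _ _) (le_max_left _ _)) hx
    have b1 : x1 ≤ x := le_trans (le_trans (le_max_right _ _) (le_max_left _ _)) hx
    have b2 : 1 ≤ x := le_trans (le_max_right _ _) hx
    have hl := hx1 x b1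
    have hlow := hx0 x b0
    rw [div_le_iff₀ hc] at hl
    have hL0 : 0 ≤ Real.log x := Real.log_nonneg (by exact_mod_cast b2)
    have hx0' : (0 : ℝ) ≤ x := Nat.cast_nonneg x
    calc (x : ℝ) = x * 1 := by ring
      _ ≤ x * (Real.log x * c) := mul_le_mul_of_nonneg_left hl hx0'
      _ = (c * x) * Real.log x := by ring
      _ ≤ (((Pool.Agent.R518.IP.IPs a x).card : ℝ) * Real.log x ^ (a + 1)) * Real.log x :=
          mul_le_mul_of_nonneg_right hlow hL0
      _ = ((IPs a x).card : ℝ) * Real.log x ^ (a + 2) := by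
          have : (Pool.Agent.R518.IP.IPs a x) = IPs a x := rfl
          rw [this]
          ring
  · exact iff2B descr' (IPs a) hsub

end Pool.Agent.Results.MP_778b46_nt.ReducedToClasses
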