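import Pool.Agent.NH15.CT.W1
import Pool.Agent.W301.SS.Trans
import Pool.Agent.TH823.Fam.Fam2
import Pool.Agent.TH665.GP.F3

/-!
# Sums of an iterated prime and a prime in intervals of polylogarithmic length at the values of a polynomial
-/

set_option autoImplicit false

namespace Pool.Agent.Results.MP_778b46_nt.WindowsAtThinFamilies

open Finset

/-- `p(k)`, the `k`-th prime: `p(1) = 2`, `p(2) = 3`, ... -/
noncomputable def p (k : ℕ) : ℕ := Nat.nth Nat.Prime (k - 1)

/-- the `a`-primes: `p(p(... p(x) ...))`, with `a + 1` applications of `p`, `x` a positive integer -/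
def IsAPrime (a u : ℕ) : Prop := ∃ x : ℕ, 0 < x ∧ p^[a + 1] x = u

open Classical in
/-- the `a`-primes less than `N` -/
noncomputable def aPrimes (a N : ℕ) : Finset ℕ := (range N).filter (IsAPrime a)

/-- the number `2 n` is `(a, 0)`-representable -/
def Representable (a n : ℕ) : Prop :=
  ∃ x y : ℕ, 0 < x ∧ 0 < y ∧ p^[a + 1] x ≠ p^[0 + 1] y ∧ p^[a + 1] x + p^[0 + 1] y = 2 * n

/-- the pairs `(u, v)` of an `a`-prime `u < N` and a prime `v ≠ u` such that `u + v` is an even number in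
the interval `(t, t + y]` -/
noncomputable def pairs (a N t y : ℕ) : Finset (ℕ × ℕ) :=
  (aPrimes a N ×ˢ Icc 1 (t + y)).filter
    (fun q => q.2.Prime ∧ q.1 ≠ q.2 ∧ Even (q.1 + q.2) ∧ t < q.1 + q.2 ∧ q.1 + q.2 ≤ t + y)

/-- the sum of `log v` over the pairs -/
noncomputable def total (a N t y : ℕ) : ℝ := ∑ q ∈ pairs a N t y, Real.log (q.2 : ℝ)

/-- The additive energy of order `k` of the family `s 1, ..., s x`: the number of the solutions of
`s (v 1) + ... + s (v k) = s (w 1) + ... + s (w k)` with all `v i`, `w i` in `{1, ..., x}`. -/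
def energy (k x : ℕ) (s : ℕ → ℤ) : ℕ :=
  (((Fintype.piFinset fun _ : Fin k => Icc 1 x) ×ˢ (Fintype.piFinset fun _ : Fin k => Icc 1 x)).filter
    (fun q => ∑ i, s (q.1 i) = ∑ i, s (q.2 i))).card

/-- The interval `(t, t + y]` contains the expected number of representations of type `(a, 0)`, and at
least `y / (2 log N)` different `(a, 0)`-representable even numbers. -/
def Good (a C N y t : ℕ) : Prop :=
  |total a N t y - y * ((aPrimes a N).card : ℝ)| ≤ y * ((aPrimes a N).card : ℝ) / Real.log N ^ C ∧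
  (y : ℝ) / (2 * Real.log N) ≤ ({n : ℕ | t < 2 * n ∧ 2 * n ≤ t + y ∧ Representable a n}.ncard : ℝ)

lemma mem_aPrimes {a N u : ℕ} : u ∈ aPrimes a N ↔ u < N ∧ IsAPrime a u := by
  classical
  unfold aPrimes
  rw [mem_filter, mem_range]

lemma prime_of {a u : ℕ} (h : IsAPrime a u) : u.Prime := by
  obtain ⟨x, _, rfl⟩ := h
  rw [Function.iterate_succ_apply']
  exact Nat.prime_nth_prime _

lemma of_PI {a u : ℕ} (h : Pool.Agent.H197R2.PG.PI a u) : IsAPrime a u := by
  obtain ⟨x, hx, h1⟩ := Pool.Agent.TH665.GP.exists_index h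
  exact ⟨x, hx, h1⟩

lemma exists_p {v : ℕ} (h : v.Prime) : ∃ y : ℕ, 0 < y ∧ p^[0 + 1] y = v := by
  refine ⟨Nat.count Nat.Prime v + 1, Nat.succ_pos _, ?_⟩
  rw [Function.iterate_succ_apply', Function.iterate_zero_apply]
  unfold p
  rw [Nat.add_sub_cancel]
  exact Nat.nth_count h

/-- the pairs, parametrised by `u` and the place of `u + v` in the interval -/
noncomputable def prs (a N t y : ℕ) : Finset (ℕ × ℕ) :=
  (aPrimes a N ×ˢ Ioc 0 y).filter
    (fun q => (t - q.1 + q.2).Prime ∧ q.1 ≠ t - q.1 + q.2 ∧ Even (t + q.2))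

lemma total_eq (a N t y : ℕ) (ht : N < t) :
    total a N t y = ∑ q ∈ prs a N t y, Real.log ((t - q.1 + q.2 : ℕ) : ℝ) := by
  unfold total pairs prs
  refine sum_nbij' (i := fun q : ℕ × ℕ => (q.1, q.1 + q.2 - t)) (j := fun q : ℕ × ℕ => (q.1, t - q.1 + q.2))
    ?_ ?_ ?_ ?_ ?_
  · rintro ⟨u, v⟩ h
    simp only [mem_filter, mem_product, mem_Icc, mem_Ioc, mem_aPrimes] at h ⊢
    obtain ⟨⟨⟨h1, h2⟩, h3, h4⟩, h5, h6, h7, h8, h9⟩ := h
    have e : t - u + (u + v - t) = v := by omega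
    have e2 : t + (u + v - t) = u + v := by omega
    refine ⟨⟨⟨h1, h2⟩, by omega, by omega⟩, ?_, ?_, ?_⟩
    · rw [e]; exact h5
    · rw [e]; exact h6
    · rw [e2]; exact h7
  · rintro ⟨u, v⟩ h
    simp only [mem_filter, mem_product, mem_Icc, mem_Ioc, mem_aPrimes] at h ⊢
    obtain ⟨⟨⟨h1, h2⟩, h3, h4⟩, h5, h6, h7⟩ := h
    have e : u + (t - u + v) = t + v := by omega
    refine ⟨⟨⟨h1, h2⟩, by omega, by omega⟩, h5, h6, ?_, by omega, by omega⟩
    rw [e]; exact h7
  · rintro ⟨u, v⟩ h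
    simp only [mem_filter, mem_product, mem_Icc, mem_aPrimes] at h
    obtain ⟨⟨⟨h1, h2⟩, h3, h4⟩, h5, h6, h7, h8, h9⟩ := h
    simp only [Prod.mk.injEq, true_and]
    omega
  · rintro ⟨u, v⟩ h
    simp only [mem_filter, mem_product, mem_Ioc, mem_aPrimes] at h
    obtain ⟨⟨⟨h1, h2⟩, h3, h4⟩, h5, h6, h7⟩ := h
    simp only [Prod.mk.injEq, true_and]
    omega
  · rintro ⟨u, v⟩ h
    simp only [mem_filter, mem_product, mem_Icc, mem_aPrimes] at h
    obtain ⟨⟨⟨h1, h2⟩, h3, h4⟩, h5, h6, h7, h8, h9⟩ := h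
    have e : t - u + (u + v - t) = v := by omega
    simp only [e]

/-- the sum over all pairs -/
noncomputable def TT (a N t y : ℕ) : ℝ :=
  ∑ q ∈ aPrimes a N ×ˢ Ioc 0 y, Pool.Agent.W301.SS.om (t - q.1 + q.2)

lemma total_le_TT (a N t y : ℕ) (ht : N < t) : total a N t y ≤ TT a N t y := by
  rw [total_eq a N t y ht]
  unfold TT prs
  refine le_trans (le_of_eq (sum_congr rfl fun q hq => ?_)) (sum_le_sum_of_subset_of_nonneg (filter_subset _ _)
    fun q _ _ => Pool.Agent.W301.SS.om_nonneg _)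
  unfold Pool.Agent.W301.SS.om
  rw [if_pos (mem_filter.1 hq).2.1]

lemma TT_le_total (a N t y : ℕ) (ht : N < t) (ht2 : t ≤ 2 * N) (hy : y ≤ N) :
    TT a N t y ≤ total a N t y + 2 * y * Real.log ((4 * N : ℕ) : ℝ) := by
  classical
  rw [total_eq a N t y ht]
  have hN : 1 ≤ 4 * N := by omega
  have hlog : 0 ≤ Real.log ((4 * N : ℕ) : ℝ) := Real.log_nonneg (by exact_mod_cast hN)
  have hsplit : TT a N t y = ∑ q ∈ prs a N t y, Pool.Agent.W301.SS.om (t - q.1 + q.2) +
      ∑ q ∈ (aPrimes a N ×ˢ Ioc 0 y).filter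
        (fun q => ¬ ((t - q.1 + q.2).Prime ∧ q.1 ≠ t - q.1 + q.2 ∧ Even (t + q.2))),
        Pool.Agent.W301.SS.om (t - q.1 + q.2) := by
    unfold TT prs
    rw [sum_filter_add_sum_filter_not]
  have h1 : ∑ q ∈ prs a N t y, Pool.Agent.W301.SS.om (t - q.1 + q.2) =
      ∑ q ∈ prs a N t y, Real.log ((t - q.1 + q.2 : ℕ) : ℝ) := by
    refine sum_congr rfl fun q hq => ?_
    unfold Pool.Agent.W301.SS.om
    unfold prs at hq
    rw [if_pos (mem_filter.1 hq).2.1]
  have h2 : ∑ q ∈ (aPrimes a N ×ˢ Ioc 0 y).filter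
        (fun q => ¬ ((t - q.1 + q.2).Prime ∧ q.1 ≠ t - q.1 + q.2 ∧ Even (t + q.2))),
        Pool.Agent.W301.SS.om (t - q.1 + q.2) ≤
      ∑ q ∈ (aPrimes a N ×ˢ Ioc 0 y).filter (fun q => q.1 = 2 ∨ 2 * q.1 = t + q.2),
        Real.log ((4 * N : ℕ) : ℝ) := by
    rw [sum_filter, sum_filter]
    refine sum_le_sum fun q hq => ?_
    obtain ⟨u, h⟩ := q
    rw [mem_product, mem_aPrimes, mem_Ioc] at hq
    obtain ⟨⟨h3, h4⟩, h5, h6⟩ := hq
    simp only at h3 h4 h5 h6 ⊢
    have hup := prime_of h4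
    unfold Pool.Agent.W301.SS.om
    by_cases hv : (t - u + h).Prime
    · by_cases hP : (t - u + h).Prime ∧ u ≠ t - u + h ∧ Even (t + h)
      · rw [if_neg (not_not.2 hP)]
        split_ifs
        · exact hlog
        · exact le_rfl
      · rw [if_pos hP, if_pos hv]
        have hc : u = 2 ∨ 2 * u = t + h := by
          by_contra hcon
          push Not at hcon
          apply hP
          refine ⟨hv, by omega, ?_⟩
          have hu : Odd u := hup.odd_of_ne_two hcon.1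
          have hvo : Odd (t - u + h) := hv.odd_of_ne_two (by omega)
          have : t + h = u + (t - u + h) := by omega
          rw [this]
          exact hu.add_odd hvo
        rw [if_pos hc]
        apply Real.log_le_log
        · exact_mod_cast hv.pos
        · exact_mod_cast (by omega : t - u + h ≤ 4 * N)
    · rw [if_pos (fun hP => hv hP.1), if_neg hv]
      split_ifs
      · exact hlog
      · exact le_rfl
  have h3 : (((aPrimes a N ×ˢ Ioc 0 y).filter (fun q => q.1 = 2 ∨ 2 * q.1 = t + q.2)).card : ℝ) ≤ 2 * y := by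
    have h4 : ((aPrimes a N ×ˢ Ioc 0 y).filter (fun q => q.1 = 2 ∨ 2 * q.1 = t + q.2)).card ≤ 2 * y := by
      rw [filter_or]
      refine (card_union_le _ _).trans ?_
      have h5 : ((aPrimes a N ×ˢ Ioc 0 y).filter (fun q => q.1 = 2)).card ≤ y := by
        calc ((aPrimes a N ×ˢ Ioc 0 y).filter (fun q => q.1 = 2)).card ≤ (Ioc 0 y).card := by
              refine card_le_card_of_injOn (fun q => q.2) ?_ ?_
              · intro q hq
                have := (mem_filter.1 hq).1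
                exact (mem_product.1 this).2
              · intro q hq r hr hqr
                have h6 := (mem_filter.1 hq).2
                have h7 := (mem_filter.1 hr).2
                exact Prod.ext (h6.trans h7.symm) hqr
          _ = y := by simp
      have h6 : ((aPrimes a N ×ˢ Ioc 0 y).filter (fun q => 2 * q.1 = t + q.2)).card ≤ y := by
        calc ((aPrimes a N ×ˢ Ioc 0 y).filter (fun q => 2 * q.1 = t + q.2)).card ≤ (Ioc 0 y).card := by
              refine card_le_card_of_injOn (fun q => q.2) ?_ ?_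
              · intro q hq
                have := (mem_filter.1 hq).1
                exact (mem_product.1 this).2
              · intro q hq r hr hqr
                have h6 := (mem_filter.1 hq).2
                have h7 := (mem_filter.1 hr).2
                simp only at hqr
                refine Prod.ext ?_ hqr
                omega
          _ = y := by simp
      omega
    exact_mod_cast h4
  rw [hsplit, h1]
  refine add_le_add le_rfl (h2.trans ?_)
  rw [sum_const, nsmul_eq_mul]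
  exact mul_le_mul_of_nonneg_right h3 hlog

lemma TT_eq (a N t y : ℕ) (ht : N < t) (hy : 0 < y) :
    TT a N t y - y * ((aPrimes a N).card : ℝ) =
      y * ∑ i ∈ Icc 1 N, (if N - i ∈ aPrimes a N then (1 : ℝ) else 0) *
        (Pool.Agent.TH646.TT.av y (i + (t - N)) - 1) := by
  classical
  have hy0 : (y : ℝ) ≠ 0 := by exact_mod_cast hy.ne'
  have h1 : ∑ i ∈ Icc 1 N, (if N - i ∈ aPrimes a N then (1 : ℝ) else 0) *
        (Pool.Agent.TH646.TT.av y (i + (t - N)) - 1) =
      ∑ u ∈ aPrimes a N, (Pool.Agent.TH646.TT.av y (t - u) - 1) := by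
    have h2 : ∀ i, (if N - i ∈ aPrimes a N then (1 : ℝ) else 0) *
        (Pool.Agent.TH646.TT.av y (i + (t - N)) - 1) =
        if N - i ∈ aPrimes a N then (Pool.Agent.TH646.TT.av y (i + (t - N)) - 1) else 0 := by
      intro i
      split_ifs <;> simp
    rw [sum_congr rfl fun i _ => h2 i, ← sum_filter]
    refine sum_nbij' (i := fun i : ℕ => N - i) (j := fun u : ℕ => N - u) ?_ ?_ ?_ ?_ ?_
    · intro i hi
      exact (mem_filter.1 hi).2
    · intro u hu
      have h3 := (mem_aPrimes.1 hu).1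
      have h4 := (prime_of (mem_aPrimes.1 hu).2).pos
      rw [mem_filter, mem_Icc]
      refine ⟨by omega, ?_⟩
      rw [Nat.sub_sub_self h3.le]
      exact hu
    · intro i hi
      have := mem_Icc.1 (mem_filter.1 hi).1
      omega
    · intro u hu
      have h3 := (mem_aPrimes.1 hu).1
      omega
    · intro i hi
      have := mem_Icc.1 (mem_filter.1 hi).1
      have e : i + (t - N) = t - (N - i) := by omega
      rw [e]
  rw [h1, sum_sub_distrib, sum_const, nsmul_eq_mul, mul_one, mul_sub]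
  congr 1
  unfold TT
  rw [sum_product, mul_sum]
  refine sum_congr rfl fun u _ => ?_
  unfold Pool.Agent.TH646.TT.av
  field_simp

/-- lower bound for the number of the `a`-primes -/
lemma card_low (a : ℕ) : ∃ c : ℝ, 0 < c ∧ ∀ᶠ N : ℕ in Filter.atTop,
    c * N ≤ ((aPrimes a N).card : ℝ) * Real.log N ^ (a + 1) := by
  classical
  obtain ⟨c, hc, y0, h⟩ := Pool.Agent.TH665.GP.density a
  refine ⟨c / 2, by positivity, ?_⟩
  filter_upwards [Filter.eventually_ge_atTop (max (y0 + 1) 3)] with N hN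
  have hN1 : y0 + 1 ≤ N := (le_max_left _ _).trans hN
  have hN2 : 3 ≤ N := (le_max_right _ _).trans hN
  obtain ⟨S, hS1, hS2, hS3⟩ := h (N - 1) (by omega)
  have h1 : S ⊆ aPrimes a N := by
    intro u hu
    have := mem_Icc.1 (hS1 hu)
    exact mem_aPrimes.2 ⟨by omega, of_PI (hS2 u hu)⟩
  have h2 : (S.card : ℝ) ≤ ((aPrimes a N).card : ℝ) := by exact_mod_cast card_le_card h1
  have h3 : Real.log ((N - 1 : ℕ) : ℝ) ≤ Real.log N := by
    apply Real.log_le_log
    · exact_mod_cast (by omega : 0 < N - 1)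
    · exact_mod_cast Nat.sub_le _ _
  have h4 : 0 ≤ Real.log ((N - 1 : ℕ) : ℝ) := Real.log_natCast_nonneg _
  have h5 : (N : ℝ) / 2 ≤ ((N - 1 : ℕ) : ℝ) := by
    rw [Nat.cast_sub (by omega)]
    have : (3 : ℝ) ≤ N := by exact_mod_cast hN2
    push_cast
    linarith
  calc c / 2 * N = c * (N / 2) := by ring
    _ ≤ c * ((N - 1 : ℕ) : ℝ) := mul_le_mul_of_nonneg_left h5 hc.le
    _ ≤ S.card * Real.log ((N - 1 : ℕ) : ℝ) ^ (a + 1) := hS3
    _ ≤ (aPrimes a N).card * Real.log N ^ (a + 1) := by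
        apply mul_le_mul h2 (pow_le_pow_left₀ h4 h3 _) (by positivity) (by positivity)

lemma energy_sub (k x : ℕ) (s : ℕ → ℤ) (c : ℤ) : energy k x (fun m => s m - c) = energy k x s := by
  unfold energy
  congr 1
  apply filter_congr
  intro q _
  simp only [sum_sub_distrib, sub_left_inj]

lemma distinct (a N t y : ℕ) (ht2 : t ≤ 2 * N) (hy : y ≤ N) :
    total a N t y ≤ ((aPrimes a N).card : ℝ) *
      ({n : ℕ | t < 2 * n ∧ 2 * n ≤ t + y ∧ Representable a n}.ncard : ℝ) * Real.log ((4 * N : ℕ) : ℝ) := by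
  classical
  obtain ⟨D, hD⟩ : ∃ D : Finset ℕ, D = (range (t + y + 1)).filter
    (fun n => t < 2 * n ∧ 2 * n ≤ t + y ∧ Representable a n) := ⟨_, rfl⟩
  have hDn : {n : ℕ | t < 2 * n ∧ 2 * n ≤ t + y ∧ Representable a n}.ncard = D.card := by
    rw [← Set.ncard_coe_finset]
    apply congrArg Set.ncard
    ext n
    rw [hD, mem_coe, mem_filter, mem_range]
    constructor
    · rintro ⟨h1, h2, h3⟩
      exact ⟨by omega, h1, h2, h3⟩
    · rintro ⟨_, h1, h2, h3⟩
      exact ⟨h1, h2, h3⟩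
  have hcard : (pairs a N t y).card ≤ (aPrimes a N).card * D.card := by
    rw [← card_product]
    refine card_le_card_of_injOn (fun q => (q.1, (q.1 + q.2) / 2)) ?_ ?_
    · intro q hq
      obtain ⟨u, v⟩ := q
      rw [mem_coe] at hq
      unfold pairs at hq
      rw [mem_filter, mem_product, mem_Icc, mem_aPrimes] at hq
      obtain ⟨⟨⟨h1, h2⟩, h3, h4⟩, h5, h6, ⟨j, hj⟩, h8, h9⟩ := hq
      simp only at h1 h2 h3 h4 h5 h6 hj h8 h9
      rw [mem_coe, mem_product]
      refine ⟨mem_aPrimes.2 ⟨h1, h2⟩, ?_⟩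
      have e : (u + v) / 2 = j := by omega
      simp only [e]
      rw [hD, mem_filter, mem_range]
      obtain ⟨x, hx, hxu⟩ := h2
      obtain ⟨z, hz, hzv⟩ := exists_p h5
      exact ⟨by omega, by omega, by omega, x, z, hx, hz, by rw [hxu, hzv]; exact h6,
        by rw [hxu, hzv]; omega⟩
    · intro q hq r hr hqr
      obtain ⟨u, v⟩ := q
      obtain ⟨u', v'⟩ := r
      rw [mem_coe] at hq hr
      unfold pairs at hq hr
      rw [mem_filter] at hq hr
      obtain ⟨_, _, _, ⟨j, hj⟩, _⟩ := hq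
      obtain ⟨_, _, _, ⟨j', hj'⟩, _⟩ := hr
      simp only at hj hj'
      simp only [Prod.mk.injEq] at hqr ⊢
      omega
  have h1 : total a N t y ≤ (pairs a N t y).card * Real.log ((4 * N : ℕ) : ℝ) := by
    unfold total
    rw [← nsmul_eq_mul]
    apply sum_le_card_nsmul
    intro q hq
    unfold pairs at hq
    rw [mem_filter, mem_product, mem_Icc] at hq
    obtain ⟨⟨_, h3, h4⟩, _⟩ := hq
    apply Real.log_le_log
    · exact_mod_cast h3
    · exact_mod_cast (by omega : q.2 ≤ 4 * N)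
  rw [hDn]
  refine h1.trans (mul_le_mul_of_nonneg_right ?_ (Real.log_natCast_nonneg _))
  exact_mod_cast hcard

lemma TT_mono (a N t : ℕ) {y z : ℕ} (h : y ≤ z) : TT a N t y ≤ TT a N t z := by
  unfold TT
  refine sum_le_sum_of_subset_of_nonneg ?_ fun q _ _ => Pool.Agent.W301.SS.om_nonneg _
  exact product_subset_product_right (Ioc_subset_Ioc_right h)

lemma good_of (a C N t y : ℕ) (c : ℝ) (hc : 0 < c) (ht : N < t) (ht2 : t ≤ 2 * N) (hy0 : 0 < y) (hy : y ≤ N)
    (hL : 4 ≤ Real.log N)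
    (hA : c * N ≤ ((aPrimes a N).card : ℝ) * Real.log N ^ (a + 1))
    (hN : 8 * Real.log N ^ (C + a + 3) ≤ c * N)
    (h : |TT a N t y - y * ((aPrimes a N).card : ℝ)| ≤
      y * (((aPrimes a N).card : ℝ) / (2 * Real.log N ^ (C + 1)))) :
    Good a C N y t := by
  obtain ⟨L, hLdef⟩ : ∃ L, L = Real.log N := ⟨_, rfl⟩
  obtain ⟨X, hX⟩ : ∃ X, X = ((aPrimes a N).card : ℝ) := ⟨_, rfl⟩
  rw [← hLdef] at hL hN
  rw [← hLdef, ← hX] at hA h
  have hN1 : 1 ≤ N := by omega
  have hNr : (0 : ℝ) < N := by exact_mod_cast hN1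
  have hL0 : 0 < L := by linarith
  have hyr : (0 : ℝ) < y := by exact_mod_cast hy0
  have hX0 : 0 < X := by
    by_contra hcon
    push Not at hcon
    have h1 : X * L ^ (a + 1) ≤ 0 := mul_nonpos_of_nonpos_of_nonneg hcon (by positivity)
    have h2 : 0 < c * N := by positivity
    linarith
  have hlog4 : Real.log ((4 * N : ℕ) : ℝ) ≤ L + 2 := by
    push_cast
    rw [Real.log_mul (by norm_num) hNr.ne', hLdef]
    have h1 : Real.log 4 ≤ 2 := by
      have h2 : Real.log 4 = 2 * Real.log 2 := by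
        rw [show (4 : ℝ) = 2 ^ 2 by norm_num, Real.log_pow]
        norm_num
      have h3 := Real.log_two_lt_d9
      rw [h2]
      linarith
    linarith
  have hlog0 : 0 ≤ Real.log ((4 * N : ℕ) : ℝ) := Real.log_natCast_nonneg _
  have h1 := total_le_TT a N t y ht
  have h2 := TT_le_total a N t y ht ht2 hy
  have e2 : 2 * Real.log ((4 * N : ℕ) : ℝ) ≤ X / (2 * L ^ (C + 1)) := by
    rw [le_div_iff₀ (by positivity)]
    have h4 : 2 * Real.log ((4 * N : ℕ) : ℝ) * (2 * L ^ (C + 1)) * L ^ (a + 1) ≤ X * L ^ (a + 1) := by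
      calc 2 * Real.log ((4 * N : ℕ) : ℝ) * (2 * L ^ (C + 1)) * L ^ (a + 1)
          ≤ 2 * (2 * L) * (2 * L ^ (C + 1)) * L ^ (a + 1) := by
            gcongr
            linarith
        _ = 8 * L ^ (C + a + 2 + 1) := by ring
        _ ≤ c * N := hN
        _ ≤ X * L ^ (a + 1) := hA
    exact le_of_mul_le_mul_right h4 (by positivity)
  have e3 : |total a N t y - y * X| ≤ y * X / L ^ (C + 1) := by
    obtain ⟨h4, h5⟩ := abs_le.1 h
    have h7 : y * (2 * Real.log ((4 * N : ℕ) : ℝ)) ≤ y * (X / (2 * L ^ (C + 1))) :=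
      mul_le_mul_of_nonneg_left e2 hyr.le
    have h8 : y * (X / (2 * L ^ (C + 1))) + y * (X / (2 * L ^ (C + 1))) = y * X / L ^ (C + 1) := by
      field_simp
      ring
    have h9 : 0 ≤ y * (X / (2 * L ^ (C + 1))) := by positivity
    rw [abs_le]
    constructor <;> linarith
  have e4 : y * X / L ^ (C + 1) ≤ y * X / L ^ C := by
    apply div_le_div_of_nonneg_left (by positivity) (by positivity)
    exact pow_le_pow_right₀ (by linarith) (by omega)
  have e5 : y * X / L ^ (C + 1) ≤ y * X / L := by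
    apply div_le_div_of_nonneg_left (by positivity) hL0
    calc L = L ^ 1 := (pow_one L).symm
      _ ≤ L ^ (C + 1) := pow_le_pow_right₀ (by linarith) (by omega)
  unfold Good
  rw [← hX, ← hLdef]
  refine ⟨e3.trans e4, ?_⟩
  have h4 := distinct a N t y ht2 hy
  obtain ⟨D, hD⟩ : ∃ D : ℝ, D =
    ({n : ℕ | t < 2 * n ∧ 2 * n ≤ t + y ∧ Representable a n}.ncard : ℝ) := ⟨_, rfl⟩
  have hD0 : 0 ≤ D := by rw [hD]; exact Nat.cast_nonneg _
  rw [← hX, ← hD] at h4
  rw [← hD]
  have h5 := (abs_le.1 e3).1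
  have h6 : X * (y * (1 - 1 / L)) ≤ X * (D * (L + 2)) := by
    calc X * (y * (1 - 1 / L)) = y * X - y * X / L := by ring
      _ ≤ total a N t y := by linarith
      _ ≤ X * D * Real.log ((4 * N : ℕ) : ℝ) := h4
      _ ≤ X * D * (L + 2) := mul_le_mul_of_nonneg_left hlog4 (by positivity)
      _ = X * (D * (L + 2)) := by ring
  have h7 : y * (1 - 1 / L) ≤ D * (L + 2) := le_of_mul_le_mul_left h6 hX0
  have h8 : 3 / 4 ≤ 1 - 1 / L := by
    have : 1 / L ≤ 1 / 4 := one_div_le_one_div_of_le (by norm_num) hL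
    linarith
  have h9 : (y : ℝ) * (3 / 4) ≤ D * (L + 2) := (mul_le_mul_of_nonneg_left h8 hyr.le).trans h7
  rw [div_le_iff₀ (by positivity)]
  have h10 : D * (L + 2) ≤ D * (3 / 2 * L) := mul_le_mul_of_nonneg_left (by linarith) hD0
  linarith

/-- two lengths of the grid -/
lemma between (a N t : ℕ) {g0 g1 y : ℕ} {η e : ℝ} (hη : 0 ≤ η) (hη1 : η ≤ 1) (he : 0 ≤ e) (h0 : g0 ≤ y) (h1 : y ≤ g1)
    (h2 : (g1 : ℝ) ≤ (1 + η) * y) (h3 : (1 - 2 * η) * y ≤ g0)
    (h4 : |TT a N t g0 - g0 * ((aPrimes a N).card : ℝ)| ≤ g0 * e)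
    (h5 : |TT a N t g1 - g1 * ((aPrimes a N).card : ℝ)| ≤ g1 * e) :
    |TT a N t y - y * ((aPrimes a N).card : ℝ)| ≤ y * (2 * η * ((aPrimes a N).card : ℝ) + 2 * e) := by
  obtain ⟨X, hX⟩ : ∃ X, X = ((aPrimes a N).card : ℝ) := ⟨_, rfl⟩
  rw [← hX] at h4 h5 ⊢
  have hX0 : 0 ≤ X := by rw [hX]; exact Nat.cast_nonneg _
  have m0 := TT_mono a N t h0
  have m1 := TT_mono a N t h1
  have hg0 : (g0 : ℝ) ≤ y := by exact_mod_cast h0
  have hy0 : (0 : ℝ) ≤ y := Nat.cast_nonneg _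
  obtain ⟨a1, a2⟩ := abs_le.1 h4
  obtain ⟨b1, b2⟩ := abs_le.1 h5
  have c1 : (g1 : ℝ) * X ≤ (1 + η) * y * X := mul_le_mul_of_nonneg_right h2 hX0
  have c2 : (g1 : ℝ) * e ≤ (1 + η) * y * e := mul_le_mul_of_nonneg_right h2 he
  have c3 : (1 - 2 * η) * y * X ≤ g0 * X := mul_le_mul_of_nonneg_right h3 hX0
  have c4 : (g0 : ℝ) * e ≤ y * e := mul_le_mul_of_nonneg_right hg0 he
  have c5 : (1 + η) * y * e ≤ 2 * (y * e) := by
    have : η * (y * e) ≤ 1 * (y * e) := mul_le_mul_of_nonneg_right hη1 (by positivity)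
    linarith
  have c6 : 0 ≤ η * (y * X) := by positivity
  have c7 : 0 ≤ y * e := by positivity
  rw [abs_le]
  constructor <;> linarith

theorem general (a k B E C : ℕ) : ∃ K : ℕ, ∀ N : ℕ, K ≤ N → ∀ (x : ℕ) (s : ℕ → ℤ),
    (∀ m ∈ Icc 1 x, |s m| ≤ B * N) →
    (energy k x s : ℝ) * N ≤ Real.log N ^ E * (x : ℝ) ^ (2 * k) →
    ({m : ℕ | 1 ≤ m ∧ m ≤ x ∧ N < s m ∧ s m ≤ 2 * N ∧
      ¬ ∀ y : ℕ, Real.log N ^ K ≤ y → y ≤ N → Good a C N y (s m).toNat}.ncard : ℝ) ≤
      x / Real.log N ^ C := by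
  classical
  obtain ⟨K0, N0, h0⟩ := Pool.Agent.NH15.CT.theta_w k (B + 1) E (2 * C + a + 3)
  obtain ⟨c, hc, h1⟩ := card_low a
  have hlog : Filter.Tendsto (fun N : ℕ => Real.log (N : ℝ)) Filter.atTop Filter.atTop :=
    Real.tendsto_log_atTop.comp tendsto_natCast_atTop_atTop
  have h2 : ∀ᶠ N : ℕ in Filter.atTop, 19 ≤ Real.log (N : ℝ) := hlog.eventually_ge_atTop 19
  have h3 : ∀ᶠ N : ℕ in Filter.atTop, 8 / c ≤ Real.log (N : ℝ) := hlog.eventually_ge_atTop (8 / c)
  have h4 : ∀ᶠ N : ℕ in Filter.atTop, 8 * Real.log (N : ℝ) ^ (C + a + 3) ≤ c * N := by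
    have h5 : ∀ᶠ t : ℝ in Filter.atTop, ‖Real.log t ^ (C + a + 3)‖ ≤ c / 8 * ‖id t‖ :=
      (Real.isLittleO_pow_log_id_atTop (n := C + a + 3)).bound (by positivity)
    filter_upwards [tendsto_natCast_atTop_atTop.eventually h5] with N hN
    simp only [id, Real.norm_eq_abs, Nat.abs_cast] at hN
    have h6 := (le_abs_self _).trans hN
    linarith
  obtain ⟨N1, hN1⟩ := Filter.eventually_atTop.1 ((h1.and h2).and (h3.and h4))
  refine ⟨K0 + C + 3 + N0 + N1, fun N hN x s hs hE => ?_⟩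
  obtain ⟨⟨g1, g2⟩, g3, g4⟩ := hN1 N (by omega)
  obtain ⟨L, hL⟩ : ∃ L, L = Real.log N := ⟨_, rfl⟩
  obtain ⟨X, hX⟩ : ∃ X, X = ((aPrimes a N).card : ℝ) := ⟨_, rfl⟩
  rw [← hL] at g2 g3
  have hL1 : (1 : ℝ) ≤ L := by linarith
  have hL0 : (0 : ℝ) < L := by linarith
  have hX0 : 0 ≤ X := by rw [hX]; exact Nat.cast_nonneg _
  have g3' : 8 ≤ c * L := by
    rw [div_le_iff₀ hc] at g3
    linarith
  have hNr : (0 : ℝ) ≤ N := Nat.cast_nonneg _
  -- the grid
  obtain ⟨η, hη⟩ : ∃ η, η = 1 / (8 * L ^ (C + 1)) := ⟨_, rfl⟩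
  have hη0 : 0 < η := by rw [hη]; positivity
  have hLp : ∀ i : ℕ, 1 ≤ L ^ i := fun i => one_le_pow₀ hL1
  have hη1 : η ≤ 1 / 8 := by
    rw [hη]
    apply one_div_le_one_div_of_le (by norm_num)
    have := hLp (C + 1)
    linarith
  obtain ⟨J, hJ⟩ : ∃ J, J = ⌊16 * L ^ (C + 2)⌋₊ + 2 := ⟨_, rfl⟩
  obtain ⟨e, he⟩ : ∃ e, e = (N : ℝ) / L ^ (2 * C + a + 3) := ⟨_, rfl⟩
  have he0 : 0 ≤ e := by rw [he]; positivity
  obtain ⟨Sg, hSg⟩ : ∃ Sg : ℕ → Finset ℕ, Sg = fun j => (Icc 1 x).filter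
    (fun m => (L ^ K0 ≤ (Pool.Agent.W301.SS.gr η j : ℝ) ∧ Pool.Agent.W301.SS.gr η j ≤ 2 * N) ∧
      N < s m ∧ s m ≤ 2 * N ∧ e < |∑ i ∈ Icc 1 N, (if N - i ∈ aPrimes a N then (1 : ℝ) else 0) *
        (Pool.Agent.TH646.TT.av (Pool.Agent.W301.SS.gr η j) (i + ((s m).toNat - N)) - 1)|) := ⟨_, rfl⟩
  have hcard : ∀ j, ((Sg j).card : ℝ) ≤ x / L ^ (2 * C + a + 3) := by
    intro j
    by_cases hj : L ^ K0 ≤ (Pool.Agent.W301.SS.gr η j : ℝ) ∧ Pool.Agent.W301.SS.gr η j ≤ 2 * N
    · rw [hL]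
      refine h0 N (by omega) x (fun m => s m - N) ?_ ?_
        (fun i => if N - i ∈ aPrimes a N then (1 : ℝ) else 0) ?_ (Pool.Agent.W301.SS.gr η j)
        (by rw [← hL]; exact hj.1) hj.2 (Sg j) (by rw [hSg]; exact filter_subset _ _) ?_
      · intro m hm
        have h5 := hs m hm
        rw [abs_le] at h5 ⊢
        push_cast
        constructor <;> nlinarith [h5.1, h5.2]
      · have h5 := energy_sub k x s N
        unfold energy at h5
        unfold Pool.Agent.H373R2.T7.energy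
        rw [h5]
        exact hE
      · intro i
        split_ifs <;> simp
      · intro m hm
        rw [hSg, mem_filter] at hm
        obtain ⟨_, _, g5, g6, g7⟩ := hm
        refine ⟨by omega, by omega, ?_⟩
        have e1 : (s m - (N : ℤ)).toNat = (s m).toNat - N := by omega
        rw [e1, ← hL, ← he]
        exact g7
    · have h5 : Sg j = ∅ := by
        rw [hSg]
        apply filter_eq_empty_iff.2
        intro m _ hm
        exact hj hm.1
      rw [h5, card_empty, Nat.cast_zero]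
      positivity
  obtain ⟨S, hS⟩ : ∃ S : Finset ℕ, S = (Icc 1 x).filter
    (fun m => N < s m ∧ s m ≤ 2 * N ∧ ¬ ∀ y : ℕ, Real.log N ^ (K0 + C + 3 + N0 + N1) ≤ y → y ≤ N →
      Good a C N y (s m).toNat) := ⟨_, rfl⟩
  have hSn : {m : ℕ | 1 ≤ m ∧ m ≤ x ∧ N < s m ∧ s m ≤ 2 * N ∧
      ¬ ∀ y : ℕ, Real.log N ^ (K0 + C + 3 + N0 + N1) ≤ y → y ≤ N → Good a C N y (s m).toNat}.ncard = S.card := by
    rw [← Set.ncard_coe_finset]
    apply congrArg Set.ncard
    ext m
    rw [hS, mem_coe, mem_filter, mem_Icc, and_assoc]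
    exact Iff.rfl
  have hsub : S ⊆ (range J).biUnion Sg := by
    intro m hm
    rw [hS, mem_filter] at hm
    obtain ⟨hmx, g5, g6, g7⟩ := hm
    by_contra hcon
    apply g7
    intro y hy1 hy2
    rw [← hL] at hy1
    have hy3 : L ^ (K0 + C + 3) ≤ y := (pow_le_pow_right₀ hL1 (by omega)).trans hy1
    have hy4 : L ^ K0 * L ≤ y := by
      refine le_trans ?_ hy3
      rw [← pow_succ]
      exact pow_le_pow_right₀ hL1 (by omega)
    have hyη : 1 / η ≤ y := by
      refine le_trans ?_ hy3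
      rw [hη, one_div_one_div]
      calc 8 * L ^ (C + 1) ≤ L * L ^ (C + 1) := by
            apply mul_le_mul_of_nonneg_right _ (by positivity)
            linarith
        _ = L ^ (C + 2) := by ring
        _ ≤ L ^ (K0 + C + 3) := pow_le_pow_right₀ hL1 (by omega)
    have hy0r : (1 : ℝ) ≤ y := (hLp _).trans hy3
    have hy0 : 1 ≤ y := by exact_mod_cast hy0r
    have hyN : (y : ℝ) ≤ N := by exact_mod_cast hy2
    obtain ⟨j, q1, q2, q3, q4, q5⟩ := Pool.Agent.W301.SS.gr_mem hη0 (by linarith) y hy0 hyη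
    have hj : (j : ℝ) ≤ 16 * L ^ (C + 2) := by
      have r1 : η / 2 ≤ Real.log (1 + η) := by
        have r2 := Real.one_sub_inv_le_log_of_pos (show 0 < 1 + η by linarith)
        have r3 : η / 2 ≤ 1 - (1 + η)⁻¹ := by
          have r4 : 1 - (1 + η)⁻¹ = η / (1 + η) := by
            field_simp
            ring
          rw [r4]
          apply div_le_div_of_nonneg_left hη0.le (by linarith)
          linarith
        linarith
      have r5 : (j : ℝ) * Real.log (1 + η) ≤ L := by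
        rw [← Real.log_pow, hL]
        apply Real.log_le_log (by positivity)
        linarith
      have r6 : (j : ℝ) * (η / 2) ≤ L := (mul_le_mul_of_nonneg_left r1 (Nat.cast_nonneg _)).trans r5
      have r7 : (j : ℝ) * (η / 2) = j / (16 * L ^ (C + 1)) := by
        rw [hη]
        field_simp
        ring
      rw [r7, div_le_iff₀ (by positivity)] at r6
      calc (j : ℝ) ≤ L * (16 * L ^ (C + 1)) := r6
        _ = 16 * L ^ (C + 2) := by ring
    have hjJ : j + 1 < J := by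
      have : j ≤ ⌊16 * L ^ (C + 2)⌋₊ := Nat.le_floor hj
      omega
    have hK0 : L ^ K0 ≤ (Pool.Agent.W301.SS.gr η j : ℝ) := by
      refine le_trans ?_ q5
      have r1 : 0 ≤ L ^ K0 := by positivity
      have r2 : L ^ K0 * 2 ≤ y := by nlinarith
      have r3 : (1 / 2) * (y : ℝ) ≤ (1 - 2 * η) * y := by nlinarith
      linarith
    have hK1 : L ^ K0 ≤ (Pool.Agent.W301.SS.gr η (j + 1) : ℝ) := by
      have : (y : ℝ) ≤ (Pool.Agent.W301.SS.gr η (j + 1) : ℝ) := by exact_mod_cast q3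
      nlinarith
    have hN1' : Pool.Agent.W301.SS.gr η (j + 1) ≤ 2 * N := by
      have : (Pool.Agent.W301.SS.gr η (j + 1) : ℝ) ≤ 2 * N := by nlinarith
      exact_mod_cast this
    have ht : N < (s m).toNat := by omega
    have ht2 : (s m).toNat ≤ 2 * N := by omega
    have key : ∀ i < J, L ^ K0 ≤ (Pool.Agent.W301.SS.gr η i : ℝ) → Pool.Agent.W301.SS.gr η i ≤ 2 * N →
        |TT a N (s m).toNat (Pool.Agent.W301.SS.gr η i) -
          (Pool.Agent.W301.SS.gr η i : ℝ) * ((aPrimes a N).card : ℝ)| ≤ (Pool.Agent.W301.SS.gr η i : ℝ) * e := by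
      intro i hi r1 r2
      have r3 : (0 : ℝ) < (Pool.Agent.W301.SS.gr η i : ℝ) := lt_of_lt_of_le (by positivity) r1
      have r4 : m ∉ Sg i := fun hmi => hcon (mem_biUnion.2 ⟨i, mem_range.2 hi, hmi⟩)
      rw [hSg, mem_filter] at r4
      rw [TT_eq a N _ _ ht (by exact_mod_cast r3), abs_mul, abs_of_pos r3]
      apply mul_le_mul_of_nonneg_left _ r3.le
      by_contra r5
      push Not at r5
      exact r4 ⟨hmx, ⟨r1, r2⟩, g5, g6, r5⟩
    have k0 := key j (by omega) hK0 (by omega)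
    have k1 := key (j + 1) hjJ hK1 hN1'
    have hb := between a N (s m).toNat hη0.le (by linarith) he0 q2 q3 q4 q5 k0 k1
    refine good_of a C N (s m).toNat y c hc ht ht2 (by omega) hy2 (by linarith) g1 g4 (hb.trans ?_)
    rw [← hL, ← hX]
    apply mul_le_mul_of_nonneg_left _ (Nat.cast_nonneg _)
    have e1 : 2 * e ≤ X / (4 * L ^ (C + 1)) := by
      have e2 : e ≤ N / L ^ (C + a + 3) := by
        rw [he]
        apply div_le_div_of_nonneg_left hNr (by positivity)
        exact pow_le_pow_right₀ hL1 (by omega)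
      have e3 : N / L ^ (C + a + 3) ≤ X / (8 * L ^ (C + 1)) := by
        rw [div_le_div_iff₀ (by positivity) (by positivity)]
        rw [← hL, ← hX] at g1
        calc (N : ℝ) * (8 * L ^ (C + 1)) ≤ N * (c * L * L ^ (C + 1)) := by gcongr
          _ = (c * N) * L ^ (C + 2) := by ring
          _ ≤ (X * L ^ (a + 1)) * L ^ (C + 2) := by gcongr
          _ = X * L ^ (C + a + 3) := by ring
      have e4 : 2 * (X / (8 * L ^ (C + 1))) = X / (4 * L ^ (C + 1)) := by
        field_simp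
        ring
      linarith
    have e5 : 2 * η * X = X / (4 * L ^ (C + 1)) := by
      rw [hη]
      field_simp
      ring
    have e6 : X / (4 * L ^ (C + 1)) + X / (4 * L ^ (C + 1)) = X / (2 * L ^ (C + 1)) := by
      field_simp
      ring
    linarith
  rw [hSn]
  have hJc : (J : ℝ) ≤ L ^ (C + a + 3) := by
    have r1 : (⌊16 * L ^ (C + 2)⌋₊ : ℝ) ≤ 16 * L ^ (C + 2) := Nat.floor_le (by positivity)
    have r2 : 1 ≤ L ^ (C + 2) := hLp _
    calc (J : ℝ) = ⌊16 * L ^ (C + 2)⌋₊ + 2 := by rw [hJ]; push_cast; ring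
      _ ≤ 18 * L ^ (C + 2) := by linarith
      _ ≤ L * L ^ (C + 2) := mul_le_mul_of_nonneg_right (by linarith) (by positivity)
      _ = L ^ (C + 3) := by ring
      _ ≤ L ^ (C + a + 3) := pow_le_pow_right₀ hL1 (by omega)
  calc (S.card : ℝ) ≤ (((range J).biUnion Sg).card : ℝ) := by exact_mod_cast card_le_card hsub
    _ ≤ ∑ j ∈ range J, ((Sg j).card : ℝ) := by exact_mod_cast card_biUnion_le
    _ ≤ ∑ _j ∈ range J, (x / L ^ (2 * C + a + 3) : ℝ) := sum_le_sum fun j _ => hcard j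
    _ = J * (x / L ^ (2 * C + a + 3)) := by rw [sum_const, card_range, nsmul_eq_mul]
    _ ≤ L ^ (C + a + 3) * (x / L ^ (2 * C + a + 3)) :=
        mul_le_mul_of_nonneg_right hJc (by positivity)
    _ = x / L ^ C := by
        have r1 : L ^ (2 * C + a + 3) = L ^ C * L ^ (C + a + 3) := by rw [← pow_add]; congr 1; ring
        have r2 : L ^ C ≠ 0 := by positivity
        have r3 : L ^ (C + a + 3) ≠ 0 := by positivity
        rw [r1, eq_div_iff r2, mul_div_assoc', div_mul_eq_mul_div, div_eq_iff (mul_ne_zero r2 r3)]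
        ring
    _ = x / Real.log N ^ C := by rw [hL]

/-- **Sums of an `a`-prime and a prime at the members of thin families.** Let `a`, `C` be natural numbers.

* For all `k`, `B`, `E` there is a `K` such that for all `N ≥ K`: let `s 1, ..., s x` be integers in `[-B N, B N]` with
  an additive energy of order `k` of at most `log ^ E N` times the minimal possible size `x ^ (2 k) / N`. Then for all the
  `m ≤ x` with `N < s m ≤ 2 N`, with at most `x / log ^ C N` exceptions, all the intervals `(t, t + y]` after `t = s m`,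
  with integers `(log N) ^ K ≤ y ≤ N`, are good: the sum of `log v` over the pairs of an `a`-prime
  `u < N` and a prime `v ≠ u` with an even sum in this interval is the number of the `a`-primes `< N` times `y`, with a relative
  error of at most `log ^ (-C) N`; and at least `y / (2 log N)` even numbers in this interval are
  `(a, 0)`-representable.
* This holds for the values `s m = c + f m`, `m ≤ x`, where `f` is a fixed nonconstant polynomial with
  integer coefficients, of degree `d`, `N / log ^ E N ≤ x ^ d ≤ B N`, and `|c| ≤ B N`.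
* There are at least `c₀ N / log ^ (a + 1) N` `a`-primes `< N`, for a constant `c₀ > 0` and large `N`. -/
theorem result (a C : ℕ) :
    (∀ k B E : ℕ, ∃ K : ℕ, ∀ N : ℕ, K ≤ N → ∀ (x : ℕ) (s : ℕ → ℤ), (∀ m ∈ Icc 1 x, |s m| ≤ B * N) →
      (energy k x s : ℝ) * N ≤ Real.log N ^ E * (x : ℝ) ^ (2 * k) →
      ({m : ℕ | 1 ≤ m ∧ m ≤ x ∧ N < s m ∧ s m ≤ 2 * N ∧
        ¬ ∀ y : ℕ, Real.log N ^ K ≤ y → y ≤ N → Good a C N y (s m).toNat}.ncard : ℝ) ≤
        x / Real.log N ^ C) ∧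
    (∀ f : Polynomial ℤ, 1 ≤ f.natDegree → ∀ B E : ℕ, ∃ K : ℕ, ∀ N : ℕ, K ≤ N → ∀ x : ℕ,
      x ^ f.natDegree ≤ B * N → (N : ℝ) ≤ Real.log N ^ E * (x : ℝ) ^ f.natDegree → ∀ c : ℤ, |c| ≤ B * N →
      ({m : ℕ | 1 ≤ m ∧ m ≤ x ∧ N < c + f.eval (m : ℤ) ∧ c + f.eval (m : ℤ) ≤ 2 * N ∧
        ¬ ∀ y : ℕ, Real.log N ^ K ≤ y → y ≤ N → Good a C N y (c + f.eval (m : ℤ)).toNat}.ncard : ℝ) ≤
        x / Real.log N ^ C) ∧
    ∃ c₀ : ℝ, 0 < c₀ ∧ ∀ᶠ N : ℕ in Filter.atTop,
      c₀ * N ≤ ((aPrimes a N).card : ℝ) * Real.log N ^ (a + 1) := by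
  refine ⟨fun k B E => general a k B E C, fun f hd B E => ?_, card_low a⟩
  obtain ⟨k, B', hB', N1, h1⟩ := Pool.Agent.TH823.Fam.poly_family f hd B E
  obtain ⟨K, h2⟩ := general a k B' (E + 1) C
  obtain ⟨N2, h3⟩ := Filter.eventually_atTop.1
    ((Real.tendsto_log_atTop.comp tendsto_natCast_atTop_atTop).eventually_ge_atTop (1 : ℝ) :
      ∀ᶠ N : ℕ in Filter.atTop, (1 : ℝ) ≤ Real.log (N : ℝ))
  refine ⟨K + N1 + N2, fun N hN x hx1 hx2 c hc => ?_⟩
  obtain ⟨h4, h5⟩ := h1 N (by omega) x hx1 hx2 c hc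
  have hL := h3 N (by omega)
  refine le_trans ?_ (h2 N (by omega) x (fun m => c + f.eval (m : ℤ)) h4 h5)
  have hsub : {m : ℕ | 1 ≤ m ∧ m ≤ x ∧ N < c + f.eval (m : ℤ) ∧ c + f.eval (m : ℤ) ≤ 2 * N ∧
        ¬ ∀ y : ℕ, Real.log N ^ (K + N1 + N2) ≤ y → y ≤ N → Good a C N y (c + f.eval (m : ℤ)).toNat} ⊆
      {m : ℕ | 1 ≤ m ∧ m ≤ x ∧ N < c + f.eval (m : ℤ) ∧ c + f.eval (m : ℤ) ≤ 2 * N ∧
        ¬ ∀ y : ℕ, Real.log N ^ K ≤ y → y ≤ N → Good a C N y (c + f.eval (m : ℤ)).toNat} := by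
    rintro m ⟨q1, q2, q3, q4, q5⟩
    refine ⟨q1, q2, q3, q4, fun q6 => q5 fun y hy1 hy2 => q6 y ?_ hy2⟩
    exact (pow_le_pow_right₀ hL (by omega)).trans hy1
  have hfin : {m : ℕ | 1 ≤ m ∧ m ≤ x ∧ N < c + f.eval (m : ℤ) ∧ c + f.eval (m : ℤ) ≤ 2 * N ∧
        ¬ ∀ y : ℕ, Real.log N ^ K ≤ y → y ≤ N → Good a C N y (c + f.eval (m : ℤ)).toNat}.Finite :=
    (Set.finite_Iic x).subset fun m hm => hm.2.1
  exact_mod_cast Set.ncard_le_ncard hsub hfin

end Pool.Agent.Results.MP_778b46_nt.WindowsAtThinFamilies
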